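import Mathlib

namespace Pool.Agent.Results.MP_77df55_co.Counter

/-- A bipartite graph on `A ∪ B` is a relation `G a b` (the edge `ab`). -/
def Regular {A B : Type} (G : A → B → Prop) (k : ℕ) : Prop :=
  (∀ a, Nat.card {b // G a b} = k) ∧ ∀ b, Nat.card {a // G a b} = k

/-- A perfect matching of `G`, as a bijection `μ : A ≃ B` with every `a μ(a)` an edge. -/
def IsPM {A B : Type} (G : A → B → Prop) (μ : A ≃ B) : Prop := ∀ a, G a (μ a)

def Acceptable {A B : Type} (H : A → B → Prop) (μ : A ≃ B) : Prop :=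
  ¬ ∃ a a', a ≠ a' ∧ μ a ≠ μ a' ∧ H a (μ a') ∧ H a' (μ a)

/-- cubic graph on 16 vertices: centre 15, three branches `5j, …, 5j+4`, attached at `5j`. -/
def nb (v : Fin 16) : Finset (Fin 16) :=
  ![{15, 1, 2}, {0, 3, 4}, {0, 3, 4}, {1, 2, 4}, {1, 2, 3},
    {15, 6, 7}, {5, 8, 9}, {5, 8, 9}, {6, 7, 9}, {6, 7, 8},
    {15, 11, 12}, {10, 13, 14}, {10, 13, 14}, {11, 12, 14}, {11, 12, 13}, {0, 5, 10}] v

lemma nb_symm : ∀ u v, u ∈ nb v ↔ v ∈ nb u := by decide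
lemma nb_card : ∀ v, (nb v).card = 3 := by decide
lemma nb_irr : ∀ v, v ∉ nb v := by decide

def br (u : Fin 16) : Finset (Fin 16) := Finset.univ.filter (fun x => u.1 ≤ x.1 ∧ x.1 < u.1 + 5)

lemma br_fact : ∀ u ∈ nb 15, (br u).card = 5 ∧ 15 ∉ br u ∧ u ∈ br u ∧
    ∀ x ∈ br u, ∀ y ∈ nb x, y ∈ br u ∨ (x = u ∧ y = 15) := by decide

lemma two_cycle (f : Fin 16 → Fin 16) (hf : Function.Injective f) (h : ∀ v, f v ∈ nb v) :
    f (f 15) = 15 := by
  by_contra hc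
  obtain ⟨h1, h2, h3, h4⟩ := br_fact (f 15) (h 15)
  have : (insert 15 (br (f 15))).card ≤ (br (f 15)).card := by
    refine Finset.card_le_card_of_injOn f ?_ hf.injOn
    intro x hx
    rcases Finset.mem_insert.1 (Finset.mem_coe.1 hx) with rfl | hx
    · exact h3
    · rcases h4 x hx _ (h x) with h5 | ⟨rfl, h5⟩
      · exact h5
      · exact absurd h5 hc
  rw [Finset.card_insert_of_notMem h2] at this
  omega

theorem result : ¬ ∃ n₀ : ℕ, ∀ (A B : Type) [Finite A] [Finite B], Nat.card A = Nat.card B →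
    n₀ ≤ Nat.card A → ∀ G H : A → B → Prop, Regular G 3 → Regular H 1 →
    (∀ a b, ¬ (G a b ∧ H a b)) → ∃ μ : A ≃ B, IsPM G μ ∧ Acceptable H μ := by
  rintro ⟨n, h⟩
  have hc : ∀ a : Fin (n + 1) × Fin 16,
      Nat.card {b : Fin (n + 1) × Fin 16 // b.1 = a.1 ∧ b.2 ∈ nb a.2} = 3 := by
    intro a
    rw [← nb_card a.2, ← Fintype.card_coe, ← Nat.card_eq_fintype_card]
    exact Nat.card_congr ⟨fun b => ⟨b.1.2, b.2.2⟩, fun c => ⟨(a.1, c.1), rfl, c.2⟩,
      fun b => Subtype.ext (Prod.ext b.2.1.symm rfl), fun c => rfl⟩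
  obtain ⟨μ, h1, h2⟩ := h (Fin (n + 1) × Fin 16) (Fin (n + 1) × Fin 16) rfl (by simp; omega)
    (fun a b => b.1 = a.1 ∧ b.2 ∈ nb a.2) (fun a b => a = b)
    ⟨hc, fun b => by
      rw [← hc b]
      exact Nat.card_congr (Equiv.subtypeEquivRight fun a => by rw [nb_symm, eq_comm])⟩
    ⟨fun a => by simp, fun b => by simp⟩
    (by rintro a b ⟨⟨-, h⟩, rfl⟩; exact nb_irr _ h)
  have e : ∀ v : Fin 16, μ (0, v) = (0, (μ (0, v)).2) := fun v => Prod.ext (h1 (0, v)).1 rfl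
  have := two_cycle (fun v => (μ (0, v)).2) (fun u v huv => by
    have : μ (0, u) = μ (0, v) := by rw [e u, e v]; exact congrArg _ huv
    exact (Prod.ext_iff.1 (μ.injective this)).2) (fun v => (h1 (0, v)).2)
  have hne : ((0 : Fin (n + 1)), (15 : Fin 16)) ≠ μ (0, 15) := by
    intro hh
    have := (h1 (0, 15)).2
    rw [← hh] at this
    exact nb_irr _ this
  refine h2 ⟨(0, 15), μ (0, 15), hne, fun hh => hne (μ.injective hh), ?_, rfl⟩
  rw [e 15, e]
  exact Prod.ext rfl this.symm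

end Pool.Agent.Results.MP_77df55_co.Counter
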